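import Pool.Agent.Helper54.SP.Stmts

/-! Equal signs propagate along neighbours. -/

namespace Pool.Agent.Helper54.SP

theorem st_LINK : ST_LINK := by
  classical
  intro N S key f hinj hne hadj
  have huniq : ∀ p q q', Nbr N S key p q → Nbr N S key p q' → q = q' := by
    intro p q q' h h'
    obtain ⟨-, hq, -, hSq, hpq, hno⟩ := h
    obtain ⟨-, hq', -, hSq', hpq', hno'⟩ := h'
    rcases lt_trichotomy (key q) (key q') with hlt | heq | hgt
    · exact absurd ⟨hpq, hlt⟩ (hno' q hq hSq)
    · exact hinj q q' hq hq' hSq hSq' heq
    · exact absurd ⟨hpq', hgt⟩ (hno q' hq' hSq')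
  have hex : ∀ q p', q < N → S q → p' < N → S p' → key q < key p' →
      ∃ r, Nbr N S key q r := by
    intro q p' hq hSq hp' hSp' hlt
    obtain ⟨r, hr, hmin⟩ := Finset.exists_min_image
      ((Finset.range N).filter fun r => S r ∧ key q < key r) key
      ⟨p', Finset.mem_filter.2 ⟨Finset.mem_range.2 hp', hSp', hlt⟩⟩
    obtain ⟨hrN, hSr, hqr⟩ := Finset.mem_filter.1 hr
    refine ⟨r, hq, Finset.mem_range.1 hrN, hSq, hSr, hqr, ?_⟩
    intro s hs hSs hh
    exact absurd (hmin s (Finset.mem_filter.2 ⟨Finset.mem_range.2 hs, hSs, hh.1⟩))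
      (not_le.2 hh.2)
  have main : ∀ n : ℕ, ∀ p q p' q', Nbr N S key p q → Nbr N S key p' q' → key p ≤ key p' →
      key p' - key p ≤ n → 0 < f p q * f p' q' := by
    intro n
    induction n with
    | zero =>
      intro p q p' q' h h' hle hn
      have hk : key p = key p' := by omega
      have hp : p = p' := hinj p p' h.1 h'.1 h.2.2.1 h'.2.2.1 hk
      subst hp
      have hq := huniq p q q' h h'
      subst hq
      exact mul_self_pos.2 (hne p q h)
    | succ n ih =>
      intro p q p' q' h h' hle hn
      rcases Nat.eq_or_lt_of_le hle with hk | hlt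
      · exact ih p q p' q' h h' hle (by omega)
      · obtain ⟨-, hq, -, hSq, hpq, hno⟩ := id h
        have hqp' : key q ≤ key p' := by
          by_contra hcon
          exact hno p' h'.1 h'.2.2.1 ⟨hlt, not_le.1 hcon⟩
        rcases Nat.eq_or_lt_of_le hqp' with hk | hlt2
        · have hqe : q = p' := hinj q p' hq h'.1 hSq h'.2.2.1 hk
          subst hqe
          exact hadj p q q' h h'
        · obtain ⟨r, hr⟩ := hex q p' hq hSq h'.1 h'.2.2.1 hlt2
          have h1 := hadj p q r h hr
          have h2 := ih q r p' q' hr h' hqp' (by omega)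
          have h3 : 0 < f q r * f q r := mul_self_pos.2 (hne q r hr)
          have h4 : 0 < (f p q * f p' q') * (f q r * f q r) := by
            have := mul_pos h1 h2
            have e : f p q * f q r * (f q r * f p' q') = (f p q * f p' q') * (f q r * f q r) := by
              ring
            rwa [e] at this
          exact (mul_pos_iff_of_pos_right h3).1 h4
  intro p q p' q' h h'
  rcases le_total (key p) (key p') with hle | hle
  · exact main _ p q p' q' h h' hle le_rfl
  · rw [mul_comm]
    exact main _ p' q' p q h' h hle le_rfl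

end Pool.Agent.Helper54.SP
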